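import Pool.Agent.Work.MP_815b5d_co_all.Pair

set_option autoImplicit false

namespace Pool.Agent.Work.MP_815b5d_co_all

open Polynomial Finset

section

variable {L : Type} [Field L]

/-- a lower bound for the number of solutions of `t ^ q = t` -/
lemma card_fixed [Fintype L] [DecidableEq L] (q : ℕ) (hq : 2 ≤ q)
    (hL : Fintype.card L = q ^ 2) (hsub : ∀ a b : L, (a - b) ^ q = a ^ q - b ^ q) :
    q ≤ (Finset.univ.filter (fun t : L => t ^ q = t)).card := by
  classical
  have hqq : ∀ x : L, (x ^ q) ^ q = x := by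
    intro x
    rw [← pow_mul, ← sq, ← hL]; exact FiniteField.pow_card x
  set G : L[X] := (X ^ q - X) ^ (q - 1) + C 1 with hG
  have hG0 : G ≠ 0 := by
    intro h0
    have h1 := congrArg (fun P : L[X] => P.eval 0) h0
    simp only [hG, eval_add, eval_pow, eval_sub, eval_X, eval_C, eval_zero] at h1
    rw [zero_pow (by omega), sub_self, zero_pow (by omega), zero_add] at h1
    exact one_ne_zero h1
  have hdeg : G.natDegree ≤ (q - 1) * q := by
    rw [hG]
    refine (natDegree_add_le _ _).trans (max_le ?_ (by rw [natDegree_C]; exact Nat.zero_le _))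
    refine natDegree_pow_le.trans (Nat.mul_le_mul_left _ ?_)
    refine (natDegree_sub_le _ _).trans (max_le ?_ ?_)
    · rw [natDegree_X_pow]
    · rw [natDegree_X]; omega
  have hcov : (Finset.univ : Finset L) ⊆
      Finset.univ.filter (fun t : L => t ^ q = t) ∪ G.roots.toFinset := by
    intro t _
    rw [Finset.mem_union, Finset.mem_filter, Multiset.mem_toFinset, mem_roots hG0, IsRoot.def]
    by_cases h : t ^ q = t
    · left; exact ⟨Finset.mem_univ _, h⟩
    · right
      simp only [hG, eval_add, eval_pow, eval_sub, eval_X, eval_C]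
      set u := t ^ q - t with hu
      have hu0 : u ≠ 0 := sub_ne_zero.mpr h
      have h1 : u ^ q = - u := by
        rw [hu, hsub, hqq]; ring
      have h2 : u ^ (q - 1) * u = -1 * u := by
        rw [← pow_succ, Nat.sub_add_cancel (by omega), h1]; ring
      rw [mul_right_cancel₀ hu0 h2]
      ring
  have h1 := Finset.card_le_card hcov
  rw [Finset.card_univ, hL] at h1
  have h2 := h1.trans (Finset.card_union_le _ _)
  have h3 : G.roots.toFinset.card ≤ (q - 1) * q :=
    (Multiset.toFinset_card_le _).trans ((card_roots' G).trans hdeg)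
  have h4 : q ^ 2 = (q - 1) * q + q := by
    obtain ⟨m, rfl⟩ : ∃ m, q = m + 1 := ⟨q - 1, by omega⟩
    simp only [Nat.add_sub_cancel]
    ring
  omega

/-- the trivial upper bound -/
lemma card_le [Fintype L] [DecidableEq L] (q : ℕ) (hL : Fintype.card L = q ^ 2)
    (hchar : ringChar L ≠ 2) (s : Finset L)
    (hcl : ∀ x ∈ s, ∀ y ∈ s, x ≠ y → IsSquare (x - y)) : s.card ≤ q := by
  classical
  obtain ⟨ν, hν⟩ := FiniteField.exists_nonsquare hchar
  have hν0 : ν ≠ 0 := by rintro rfl; exact hν ⟨0, by ring⟩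
  have hinj : Set.InjOn (fun x : L × L => x.1 + ν * x.2) (s ×ˢ s : Finset (L × L)) := by
    rintro ⟨a, b⟩ hab ⟨a', b'⟩ hab' heq
    simp only [Finset.coe_product, Set.mem_prod, Finset.mem_coe] at hab hab' heq
    by_cases hb : b = b'
    · subst hb
      have : a = a' := by linear_combination heq
      rw [this]
    · exfalso
      have hsb : b' - b ≠ 0 := sub_ne_zero.mpr (Ne.symm hb)
      have h1 : a - a' = ν * (b' - b) := by linear_combination heq
      have ha : a ≠ a' := by
        intro h
        rw [h, sub_self] at h1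
        exact mul_ne_zero hν0 hsb h1.symm
      obtain ⟨x, hx⟩ := hcl a hab.1 a' hab'.1 ha
      obtain ⟨y, hy⟩ := hcl b' hab'.2 b hab.2 (Ne.symm hb)
      apply hν
      refine ⟨x / y, ?_⟩
      have hy0 : y ≠ 0 := by rintro rfl; exact hsb (by rw [hy]; ring)
      rw [hx, hy] at h1
      field_simp
      linear_combination -h1
  have h1 : (s ×ˢ s).card ≤ Fintype.card L := by
    rw [← Finset.card_image_of_injOn hinj]
    exact Finset.card_le_univ _
  rw [Finset.card_product, hL, sq] at h1
  exact Nat.mul_self_le_mul_self_iff.mp h1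

/-- A maximal clique with more than `(q + 1) / 2 + q / p` points has exactly `q` points. -/
theorem card_eq_of_large [Fintype L] (p n : ℕ) (hpr : p.Prime) (hp2 : p ≠ 2)
    (hL : Fintype.card L = (p ^ (n + 1)) ^ 2)
    (s : Finset L) (hcl : ∀ x ∈ s, ∀ y ∈ s, x ≠ y → IsSquare (x - y))
    (hmax : ∀ v : L, v ∉ s → ∃ u ∈ s, ¬ IsSquare (v - u))
    (hbig : (p ^ (n + 1) + 1) / 2 + p ^ n + 1 ≤ s.card) :
    s.card = p ^ (n + 1) := by
  classical
  have : Fact p.Prime := ⟨hpr⟩
  obtain ⟨h, hp⟩ : ∃ h, p = 2 * h + 1 := by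
    rcases hpr.eq_two_or_odd with h | h
    · exact absurd h hp2
    · exact ⟨p / 2, by omega⟩
  have hh : 1 ≤ h := by
    rcases Nat.eq_zero_or_pos h with h0 | h0
    · subst h0; exact absurd (hp ▸ hpr) (by decide)
    · exact h0
  set q := p ^ (n + 1) with hq
  have hq2 : 2 ≤ q := by
    calc 2 ≤ p := hpr.two_le
      _ = p ^ 1 := (pow_one p).symm
      _ ≤ p ^ (n + 1) := Nat.pow_le_pow_right hpr.pos (by omega)
  have hchar : CharP L p := by
    have h1 : CharP L (ringChar L) := inferInstance
    obtain ⟨m, hm, hcm⟩ := FiniteField.card L (ringChar L)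
    rw [hL] at hcm
    have : p ∣ (ringChar L) ^ (m : ℕ) := by
      rw [← hcm, hq, ← pow_mul]; exact dvd_pow_self _ (by omega)
    have h2 := (Nat.prime_dvd_prime_iff_eq hpr hm).mp (hpr.dvd_of_dvd_pow this)
    rw [h2]; exact h1
  have hrc : ringChar L ≠ 2 := by rw [ringChar.eq L p]; exact hp2
  set M := MM p h n with hM
  have hQM : 2 * M + 1 = p ^ n := two_mul_MM hp n
  set k := h + 1 + p * M with hk
  have hk2 : 2 * k = q + 1 := by
    have : q = p * p ^ n := by rw [hq]; ring
    rw [this, ← hQM, hk]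
    have h1 : p * (2 * M + 1) = 2 * (p * M) + p := by ring
    rw [h1]
    omega
  set σ : L → L := fun x => x ^ q with hσ
  have hσsub : ∀ a b : L, σ a - σ b = (a - b) ^ q := by
    intro a b; simp only [hσ, hq]; rw [sub_pow_char_pow]
  have hqq : ∀ x : L, (x ^ q) ^ q = x := by
    intro x
    rw [← pow_mul, ← sq, ← hL]; exact FiniteField.pow_card x
  -- the basic relation
  have hrel : ∀ a ∈ s, ∀ b ∈ s, (a - b) ^ k = (σ a - σ b) ^ k := by
    intro a ha b hb
    by_cases hab : a = b
    · subst hab; simp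
    obtain ⟨z, hz⟩ := hcl a ha b hb hab
    rw [hσsub, hz]
    calc (z * z) ^ k = z ^ (2 * k) := by rw [← sq, ← pow_mul]
      _ = z ^ q * z := by rw [hk2, pow_succ]
      _ = z ^ q * (z ^ q) ^ q := by rw [hqq]
      _ = (z ^ q) ^ (2 * k) := by rw [hk2, pow_succ, mul_comm]
      _ = ((z * z) ^ q) ^ k := by rw [← sq, ← pow_mul, ← pow_mul, ← pow_mul]; ring_nf
  have hle := card_le q hL hrc s hcl
  obtain ⟨α, β, hαβ⟩ := affine_of_large p h n hp s σ
    (by rw [← hM, ← hk]; omega) hle hrel
  have hcol : ∀ x ∈ s, ∀ a ∈ s, ∀ b ∈ s, (σ x - σ a) * (a - b) = (σ a - σ b) * (x - a) := by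
    intro x hx a ha b hb
    rw [hαβ x hx, hαβ a ha, hαβ b hb]
    ring
  obtain ⟨a, ha, b, hb, hab⟩ := Finset.one_lt_card.mp (by omega : 1 < s.card)
  have hsub : a - b ≠ 0 := sub_ne_zero.mpr hab
  obtain ⟨z, hz⟩ := hcl a ha b hb hab
  -- the line
  have hline : ∀ x : L, (σ x - σ a) * (a - b) = (σ a - σ b) * (x - a) → x ∈ s := by
    intro x hx
    by_contra hxs
    obtain ⟨u, hu, hnsq⟩ := hmax x hxs
    apply hnsq
    have hxu : x ≠ u := fun h => hxs (h ▸ hu)
    have hxu0 : x - u ≠ 0 := sub_ne_zero.mpr hxu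
    have h1 := hcol u hu a ha b hb
    have h2 : (x - u) ^ q * (a - b) = (a - b) ^ q * (x - u) := by
      have e1 := hσsub x u
      have e2 := hσsub a b
      rw [← e1, ← e2]
      linear_combination hx - h1
    set v := (x - u) / (a - b) with hv
    have hv0 : v ≠ 0 := div_ne_zero hxu0 hsub
    have hxv : x - u = v * (a - b) := by rw [hv]; field_simp
    have hvp : v ^ q = v := by
      rw [hxv, mul_pow] at h2
      have h3 : (a - b) ^ q * (a - b) ≠ 0 := mul_ne_zero (pow_ne_zero _ hsub) hsub
      have h4 : v ^ q * ((a - b) ^ q * (a - b)) = v * ((a - b) ^ q * (a - b)) := by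
        linear_combination h2
      exact mul_right_cancel₀ h3 h4
    have hvsq : IsSquare v := by
      rw [FiniteField.isSquare_iff hrc hv0, hL]
      have h5 : v ^ (q - 1) = 1 := by
        have : v ^ (q - 1) * v = 1 * v := by
          rw [← pow_succ, Nat.sub_add_cancel (by omega), hvp, one_mul]
        exact mul_right_cancel₀ hv0 this
      have h6 : q ^ 2 / 2 = (q - 1) * k := by
        obtain ⟨m, hm⟩ : ∃ m, q = 2 * m + 1 := ⟨k - 1, by omega⟩
        have hkm : k = m + 1 := by omega
        rw [hkm, hm]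
        have : (2 * m + 1) ^ 2 = 2 * ((2 * m + 1 - 1) * (m + 1)) + 1 := by
          simp only [Nat.add_sub_cancel]; ring
        rw [this]; omega
      rw [h6, pow_mul, h5, one_pow]
    obtain ⟨y, hy⟩ := hvsq
    exact ⟨y * z, by rw [hxv, hz, hy]; ring⟩
  refine le_antisymm hle ?_
  have hfix := card_fixed (L := L) q hq2 hL
    (fun a b => by have := hσsub a b; simp only [hσ] at this; exact this.symm)
  refine hfix.trans ?_
  refine Finset.card_le_card_of_injOn (fun t => a + t * (a - b)) ?_ ?_
  · intro t ht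
    have ht' : t ^ q = t := (Finset.mem_filter.mp (Finset.mem_coe.mp ht)).2
    apply hline
    have h1 : σ (a + t * (a - b)) - σ a = t * (a - b) ^ q := by
      rw [hσsub]
      have : a + t * (a - b) - a = t * (a - b) := by ring
      rw [this, mul_pow, ht']
    rw [h1, hσsub]
    ring
  · intro t _ t' _ htt
    simp only [add_right_inj] at htt
    exact mul_right_cancel₀ hsub htt

end

end Pool.Agent.Work.MP_815b5d_co_all
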