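import Mathlib

set_option autoImplicit false

namespace Pool.Agent.Work.MP_815b5d_co_all

open Finset

/-- numbers with `n` digits in base `p`, all at most `h` -/
def DD (p h : ℕ) : ℕ → Finset ℕ
  | 0 => {0}
  | n + 1 => ((range (h + 1)) ×ˢ DD p h n).image (fun x => x.1 + p * x.2)

/-- the number with `n` digits equal to `h` -/
def MM (p h : ℕ) : ℕ → ℕ
  | 0 => 0
  | n + 1 => h + p * MM p h n

/-- numbers with lowest digit at most `h + 1` and `n` further digits at most `h` -/
def EE (p h n : ℕ) : Finset ℕ :=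
  ((range (h + 2)) ×ˢ DD p h n).image (fun x => x.1 + p * x.2)

variable {p h : ℕ}

lemma mem_DD_succ {n m : ℕ} :
    m ∈ DD p h (n + 1) ↔ ∃ i ≤ h, ∃ m' ∈ DD p h n, m = i + p * m' := by
  simp only [DD, mem_image, mem_product, mem_range, Prod.exists]
  constructor
  · rintro ⟨i, m', ⟨hi, hm'⟩, rfl⟩
    exact ⟨i, by omega, m', hm', rfl⟩
  · rintro ⟨i, hi, m', hm', rfl⟩
    exact ⟨i, m', ⟨by omega, hm'⟩, rfl⟩

lemma mem_EE {n m : ℕ} :
    m ∈ EE p h n ↔ ∃ i ≤ h + 1, ∃ m' ∈ DD p h n, m = i + p * m' := by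
  simp only [EE, mem_image, mem_product, mem_range, Prod.exists]
  constructor
  · rintro ⟨i, m', ⟨hi, hm'⟩, rfl⟩
    exact ⟨i, by omega, m', hm', rfl⟩
  · rintro ⟨i, hi, m', hm', rfl⟩
    exact ⟨i, m', ⟨by omega, hm'⟩, rfl⟩

lemma zero_mem_DD (n : ℕ) : 0 ∈ DD p h n := by
  induction n with
  | zero => simp [DD]
  | succ n ih => exact mem_DD_succ.mpr ⟨0, Nat.zero_le _, 0, ih, by simp⟩

lemma le_MM {n m : ℕ} (hm : m ∈ DD p h n) : m ≤ MM p h n := by
  induction n generalizing m with
  | zero => simp [DD] at hm; simp [hm]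
  | succ n ih =>
    obtain ⟨i, hi, m', hm', rfl⟩ := mem_DD_succ.mp hm
    simp only [MM]
    exact add_le_add hi (Nat.mul_le_mul_left _ (ih hm'))

lemma MM_mem (n : ℕ) : MM p h n ∈ DD p h n := by
  induction n with
  | zero => simp [DD, MM]
  | succ n ih => exact mem_DD_succ.mpr ⟨h, le_rfl, _, ih, rfl⟩

lemma two_mul_MM (hp : p = 2 * h + 1) (n : ℕ) : 2 * MM p h n + 1 = p ^ n := by
  induction n with
  | zero => simp [MM]
  | succ n ih =>
    simp only [MM]
    rw [pow_succ, ← ih]
    calc 2 * (h + p * MM p h n) + 1 = (2 * h + 1) + p * (2 * MM p h n) := by ring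
      _ = p + p * (2 * MM p h n) := by rw [← hp]
      _ = _ := by ring

lemma card_image_digits (a n : ℕ) (ha : a ≤ p) (S : Finset ℕ) (hS : S.card = n) :
    (((range a) ×ˢ S).image (fun x : ℕ × ℕ => x.1 + p * x.2)).card = a * n := by
  rw [card_image_of_injOn, card_product, card_range, hS]
  rintro ⟨i, m⟩ hi ⟨i', m'⟩ hi' heq
  simp only [coe_product, Set.mem_prod, mem_coe, mem_range] at hi hi' heq
  have h1 : (i + p * m) % p = i := by
    rw [Nat.add_mul_mod_self_left, Nat.mod_eq_of_lt (by omega)]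
  have h2 : (i' + p * m') % p = i' := by
    rw [Nat.add_mul_mod_self_left, Nat.mod_eq_of_lt (by omega)]
  have h3 : i = i' := by rw [← h1, ← h2, heq]
  subst h3
  have h4 : p * m = p * m' := by omega
  have h5 : m = m' := Nat.eq_of_mul_eq_mul_left (by omega) h4
  rw [h5]

lemma card_DD (hp : h < p) (n : ℕ) : (DD p h n).card = (h + 1) ^ n := by
  induction n with
  | zero => simp [DD]
  | succ n ih =>
    rw [DD, card_image_digits (h + 1) _ (by omega) _ ih, pow_succ, mul_comm]

lemma card_EE (hp : h + 1 < p) (n : ℕ) : (EE p h n).card = (h + 2) * (h + 1) ^ n :=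
  card_image_digits (h + 2) _ (by omega) _ (card_DD (by omega) n)

lemma choose_small (hp : p.Prime) {a b : ℕ} (ha : a < p) (hb : b ≤ a) : ¬ p ∣ a.choose b := by
  intro hdvd
  have h1 : a.choose b ∣ a.factorial :=
    ⟨b.factorial * (a - b).factorial, by
      rw [← mul_assoc, Nat.choose_mul_factorial_mul_factorial hb]⟩
  have h2 := (Nat.Prime.dvd_factorial hp).mp (hdvd.trans h1)
  omega

/-- one step of Lucas' theorem -/
lemma lucas_iff (hp : p.Prime) {a A v : ℕ} (ha : a < p) :
    ¬ p ∣ (a + p * A).choose v ↔ v % p ≤ a ∧ ¬ p ∣ A.choose (v / p) := by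
  have : Fact p.Prime := ⟨hp⟩
  have h1 := Choose.choose_modEq_choose_mod_mul_choose_div_nat (n := a + p * A) (k := v)
    (p := p)
  rw [Nat.add_mul_mod_self_left, Nat.mod_eq_of_lt ha, Nat.add_mul_div_left _ _ hp.pos,
    Nat.div_eq_of_lt ha, zero_add] at h1
  have h2 : p ∣ (a + p * A).choose v ↔ p ∣ a.choose (v % p) * A.choose (v / p) := by
    rw [← Nat.modEq_zero_iff_dvd, ← Nat.modEq_zero_iff_dvd]
    exact ⟨fun h => h1.symm.trans h, fun h => h1.trans h⟩
  rw [h2, hp.dvd_mul]
  constructor
  · intro h3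
    push Not at h3
    refine ⟨?_, h3.2⟩
    by_contra h4
    push Not at h4
    exact h3.1 (by rw [Nat.choose_eq_zero_of_lt h4]; exact dvd_zero _)
  · rintro ⟨h3, h4⟩ h5
    rcases h5 with h5 | h5
    · exact choose_small hp ha h3 h5
    · exact h4 h5

lemma choose_MM_iff (hp : p.Prime) (hh : h < p) {n v : ℕ} :
    ¬ p ∣ (MM p h n).choose v ↔ v ∈ DD p h n := by
  induction n generalizing v with
  | zero =>
    simp only [MM, DD, mem_singleton]
    rcases Nat.eq_zero_or_pos v with rfl | hv
    · simp [hp.one_lt.ne']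
    · rw [Nat.choose_eq_zero_of_lt hv]
      simp; omega
  | succ n ih =>
    simp only [MM]
    rw [lucas_iff hp hh, ih, mem_DD_succ]
    constructor
    · rintro ⟨h1, h2⟩
      exact ⟨v % p, h1, v / p, h2, (Nat.mod_add_div v p).symm⟩
    · rintro ⟨i, hi, m', hm', rfl⟩
      rw [Nat.add_mul_mod_self_left, Nat.mod_eq_of_lt (by omega), Nat.add_mul_div_left _ _ hp.pos,
        Nat.div_eq_of_lt (by omega), zero_add]
      exact ⟨hi, hm'⟩

lemma choose_EE_iff (hp : p.Prime) (hh : h + 1 < p) {n v : ℕ} :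
    ¬ p ∣ (h + 1 + p * MM p h n).choose v ↔ v ∈ EE p h n := by
  rw [lucas_iff hp hh, choose_MM_iff hp (by omega), mem_EE]
  constructor
  · rintro ⟨h1, h2⟩
    exact ⟨v % p, h1, v / p, h2, (Nat.mod_add_div v p).symm⟩
  · rintro ⟨i, hi, m', hm', rfl⟩
    rw [Nat.add_mul_mod_self_left, Nat.mod_eq_of_lt (by omega), Nat.add_mul_div_left _ _ hp.pos,
      Nat.div_eq_of_lt (by omega), zero_add]
    exact ⟨hi, hm'⟩

lemma mem_EE_mod (hp : h + 1 < p) {n v : ℕ} (hv : v ∈ EE p h n) :
    v % p ≤ h + 1 ∧ v / p ∈ DD p h n := by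
  obtain ⟨i, hi, m', hm', rfl⟩ := mem_EE.mp hv
  rw [Nat.add_mul_mod_self_left, Nat.mod_eq_of_lt (by omega),
    Nat.add_mul_div_left _ _ (by omega), Nat.div_eq_of_lt (by omega), zero_add]
  exact ⟨hi, hm'⟩

lemma mem_DD_mod (hp : h < p) {n v : ℕ} (hv : v ∈ DD p h (n + 1)) :
    v % p ≤ h ∧ v / p ∈ DD p h n := by
  obtain ⟨i, hi, m', hm', rfl⟩ := mem_DD_succ.mp hv
  rw [Nat.add_mul_mod_self_left, Nat.mod_eq_of_lt (by omega),
    Nat.add_mul_div_left _ _ (by omega), Nat.div_eq_of_lt (by omega), zero_add]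
  exact ⟨hi, hm'⟩

lemma le_of_mem_EE {n v : ℕ} (hv : v ∈ EE p h n) : v ≤ h + 1 + p * MM p h n := by
  obtain ⟨i, hi, m', hm', rfl⟩ := mem_EE.mp hv
  exact add_le_add hi (Nat.mul_le_mul_left _ (le_MM hm'))

lemma top_mem_EE (n : ℕ) : h + 1 + p * MM p h n ∈ EE p h n :=
  mem_EE.mpr ⟨h + 1, le_rfl, _, MM_mem n, rfl⟩

lemma DD_sub_EE {n m : ℕ} (hm : m ∈ DD p h (n + 1)) : m ∈ EE p h n ∧ m + 1 ∈ EE p h n := by
  obtain ⟨i, hi, m', hm', rfl⟩ := mem_DD_succ.mp hm
  exact ⟨mem_EE.mpr ⟨i, by omega, m', hm', rfl⟩, mem_EE.mpr ⟨i + 1, by omega, m', hm', by ring⟩⟩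

/-- adding a top digit -/
lemma mem_DD_top {n v j : ℕ} (hv : v ∈ DD p h n) (hj : j ≤ h) : v + p ^ n * j ∈ DD p h (n + 1) := by
  induction n generalizing v with
  | zero =>
    simp only [DD, mem_singleton] at hv
    subst hv
    exact mem_DD_succ.mpr ⟨j, hj, 0, zero_mem_DD _, by simp⟩
  | succ n ih =>
    obtain ⟨i, hi, m', hm', rfl⟩ := mem_DD_succ.mp hv
    exact mem_DD_succ.mpr ⟨i, hi, m' + p ^ n * j, ih hm', by ring⟩

/-- a window of `p ^ n` consecutive numbers contains many elements -/
lemma window (hp : h < p) (n a : ℕ) (ha : a + p ^ n ≤ (h + 1) * p ^ n) :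
    (h + 1) ^ n ≤ ((EE p h n).filter (fun v => a ≤ v ∧ v < a + p ^ n)).card := by
  rw [← card_DD hp n]
  have hpos : 0 < p ^ n := pow_pos (by omega) _
  have hlt : ∀ v ∈ DD p h n, v < p ^ n := by
    intro v hv
    have h1 := mem_DD_top (j := 0) hv (Nat.zero_le _)
    clear h1
    induction n generalizing v with
    | zero => simp [DD] at hv; simp [hv]
    | succ n ih =>
      obtain ⟨i, hi, m', hm', rfl⟩ := mem_DD_succ.mp hv
      have h2 : m' < p ^ n := by
        clear ha ih hpos hv
        induction n generalizing m' with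
        | zero => simp [DD] at hm'; simp [hm']
        | succ n ih2 =>
          obtain ⟨i', hi', m'', hm'', rfl⟩ := mem_DD_succ.mp hm'
          have h3 := ih2 m'' hm''
          calc i' + p * m'' < p + p * m'' := by omega
            _ = p * (m'' + 1) := by ring
            _ ≤ p * p ^ n := Nat.mul_le_mul_left _ h3
            _ = p ^ (n + 1) := by ring
      calc i + p * m' < p + p * m' := by omega
        _ = p * (m' + 1) := by ring
        _ ≤ p * p ^ n := Nat.mul_le_mul_left _ h2
        _ = p ^ (n + 1) := by ring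
  refine card_le_card_of_injOn (fun v => v + p ^ n * ((a + p ^ n - 1 - v) / p ^ n)) ?_ ?_
  · intro v hv
    have hv' := hlt v hv
    set j := (a + p ^ n - 1 - v) / p ^ n with hj
    have h1 : p ^ n * j ≤ a + p ^ n - 1 - v := Nat.mul_div_le _ _
    have h2 : a + p ^ n - 1 - v < p ^ n * j + p ^ n := by
      have := Nat.lt_mul_div_succ (a + p ^ n - 1 - v) hpos
      rw [mul_add, mul_one] at this
      exact this
    have hjh : j ≤ h := by
      by_contra hcon
      push Not at hcon
      have h3 : (h + 1) * p ^ n ≤ j * p ^ n := Nat.mul_le_mul_right _ hcon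
      have h4 : j * p ^ n = p ^ n * j := mul_comm _ _
      omega
    have hgoal : a ≤ v + p ^ n * j ∧ v + p ^ n * j < a + p ^ n := ⟨by omega, by omega⟩
    exact mem_coe.mpr (mem_filter.mpr ⟨(DD_sub_EE (mem_DD_top hv hjh)).1, hgoal⟩)
  · intro v hv v' hv' heq
    simp only at heq
    have h1 := hlt v hv
    have h2 := hlt v' hv'
    have h3 : (v + p ^ n * ((a + p ^ n - 1 - v) / p ^ n)) % p ^ n = v := by
      rw [Nat.add_mul_mod_self_left, Nat.mod_eq_of_lt h1]
    have h4 : (v' + p ^ n * ((a + p ^ n - 1 - v') / p ^ n)) % p ^ n = v' := by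
      rw [Nat.add_mul_mod_self_left, Nat.mod_eq_of_lt h2]
    rw [← h3, ← h4, heq]

/-- a nonzero number has a multiple with a large digit -/
lemma DD_mul (hp : p = 2 * h + 1) (n : ℕ) {v : ℕ}
    (hv : ∀ m, 1 ≤ m → m ≤ h + 1 → m * v ∈ DD p h n) : v = 0 := by
  induction n generalizing v with
  | zero =>
    have := hv 1 le_rfl (by omega)
    simpa [DD] using this
  | succ n ih =>
    have h1 := hv 1 le_rfl (by omega)
    rw [one_mul] at h1
    obtain ⟨d, hd, v', hv', hvd⟩ := mem_DD_succ.mp h1
    rcases Nat.eq_zero_or_pos d with hd0 | hd0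
    · subst hd0
      rw [zero_add] at hvd
      have : v' = 0 := by
        apply ih
        intro m hm1 hm2
        have h2 := (mem_DD_mod (by omega) (hv m hm1 hm2)).2
        have h3 : m * v = p * (m * v') := by rw [hvd]; ring
        rwa [h3, Nat.mul_div_cancel_left _ (by omega)] at h2
      rw [hvd, this, mul_zero]
    · exfalso
      -- the least multiple of `d` above `h`
      set m := h / d + 1 with hm
      have h2 : d * (h / d) ≤ h := Nat.mul_div_le _ _
      have h3 : h < d * (h / d) + d := by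
        have := Nat.lt_mul_div_succ h hd0
        rw [mul_add, mul_one] at this
        exact this
      have h4 : m ≤ h + 1 := by
        have : h / d ≤ h := Nat.div_le_self _ _
        omega
      have h5 := (mem_DD_mod (by omega) (hv m (Nat.le_add_left 1 _) h4)).1
      have h6 : m * v = m * d + p * (m * v') := by rw [hvd]; ring
      have h7 : m * d = d * (h / d) + d := by rw [hm]; ring
      rw [h6, Nat.add_mul_mod_self_left, Nat.mod_eq_of_lt (by omega)] at h5
      omega

/-- numbers all of whose small multiples lie in `EE` -/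
lemma EE_mul (hp : p = 2 * h + 1) (hh : 1 ≤ h) (n : ℕ) {v : ℕ}
    (hv : ∀ m, 1 ≤ m → m ≤ h + 1 → m * v ∈ EE p h n)
    (h3v : h = 1 → v ≤ 1 ∨ 3 * v ∈ EE p h n) : v ≤ 1 := by
  have hhp : h + 1 < p := by omega
  have h1 := hv 1 le_rfl (by omega)
  rw [one_mul] at h1
  obtain ⟨d, hd, v', hv', hvd⟩ := mem_EE.mp h1
  have hpos : 0 < p := by omega
  by_cases hd1 : d ≤ 1
  · -- the higher part vanishes
    have : v' = 0 := by
      apply DD_mul hp n
      intro m hm1 hm2
      have h2 := (mem_EE_mod hhp (hv m hm1 hm2)).2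
      have h3 : m * v = m * d + p * (m * v') := by rw [hvd]; ring
      have h4 : m * d < p := by
        calc m * d ≤ m * 1 := Nat.mul_le_mul_left _ hd1
          _ < p := by omega
      rwa [h3, Nat.add_mul_div_left _ _ hpos, Nat.div_eq_of_lt h4, zero_add] at h2
    rw [hvd, this, mul_zero, add_zero]
    exact hd1
  · push Not at hd1
    exfalso
    have key : ∀ m, 1 ≤ m → m ≤ h + 1 → (m * d) % p ≤ h + 1 := by
      intro m hm1 hm2
      have h2 := (mem_EE_mod hhp (hv m hm1 hm2)).1
      have h3 : m * v = m * d + p * (m * v') := by rw [hvd]; ring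
      rwa [h3, Nat.add_mul_mod_self_left] at h2
    rcases Nat.lt_or_ge h 2 with hh2 | hh2
    · -- `h = 1`
      have hh1 : h = 1 := by omega
      rcases h3v hh1 with h4 | h4
      · have : 0 ≤ p * v' := Nat.zero_le _
        omega
      · have h5 := (mem_EE_mod hhp h4).2
        have hp3 : p = 3 := by omega
        rw [hp3, Nat.mul_div_cancel_left _ (by norm_num)] at h5
        rcases n with _ | n
        · simp [DD] at h5
          have : 0 ≤ p * v' := Nat.zero_le _
          omega
        · have h6 := (mem_DD_mod (p := 3) (h := h) (by omega) h5).1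
          rw [hvd, hp3, Nat.add_mul_mod_self_left] at h6
          have hd2 : d = 2 := by omega
          rw [hd2, hh1] at h6
          norm_num at h6
    · rcases Nat.lt_or_ge d h with hdh | hdh
      · -- `2 ≤ d < h`
        set m := (h + 1) / d + 1 with hm
        have h2 : d * ((h + 1) / d) ≤ h + 1 := Nat.mul_div_le _ _
        have h3 : h + 1 < d * ((h + 1) / d) + d := by
          have := Nat.lt_mul_div_succ (h + 1) (by omega : 0 < d)
          rw [mul_add, mul_one] at this
          exact this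
        have h4 : m ≤ h + 1 := by
          have h5 : (h + 1) / d ≤ (h + 1) / 2 := Nat.div_le_div_left (by omega) (by norm_num)
          omega
        have h5 := key m (Nat.le_add_left 1 _) h4
        have h7 : m * d = d * ((h + 1) / d) + d := by rw [hm]; ring
        rw [h7, Nat.mod_eq_of_lt (by omega)] at h5
        omega
      · rcases Nat.lt_or_ge h d with hdh' | hdh'
        · -- `d = h + 1`
          have hd' : d = h + 1 := by omega
          have h5 := key 3 (by norm_num) (by omega)
          have h6 : 3 * d = (h + 2) + p * 1 := by rw [hd', hp]; ring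
          rw [h6, Nat.add_mul_mod_self_left, Nat.mod_eq_of_lt (by omega)] at h5
          omega
        · -- `d = h`
          have hd' : d = h := by omega
          have h5 := key 2 (by norm_num) (by omega)
          rw [hd', Nat.mod_eq_of_lt (by omega)] at h5
          omega

/-- reflection -/
lemma card_reflect (hpr : p.Prime) (hh : h + 1 < p) (n J : ℕ) (hJ : J ≤ h + 1 + p * MM p h n) :
    ((EE p h n).filter (fun v => J < v)).card =
      ((EE p h n).filter (fun v => v < h + 1 + p * MM p h n - J)).card := by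
  set k := h + 1 + p * MM p h n with hk
  have hsymm : ∀ v ∈ EE p h n, k - v ∈ EE p h n := by
    intro v hv
    have h1 := le_of_mem_EE hv
    have h2 : (h + 1 + p * MM p h n).choose (k - v) = (h + 1 + p * MM p h n).choose v :=
      Nat.choose_symm h1
    rw [← choose_EE_iff hpr hh, h2, choose_EE_iff hpr hh]
    exact hv
  refine card_bij (fun v _ => k - v) ?_ ?_ ?_
  · intro v hv
    rw [mem_filter] at hv ⊢
    have h1 := le_of_mem_EE hv.1
    exact ⟨hsymm v hv.1, by omega⟩
  · intro v hv v' hv' heq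
    rw [mem_filter] at hv hv'
    have h1 := le_of_mem_EE hv.1
    have h2 := le_of_mem_EE hv'.1
    omega
  · intro v hv
    rw [mem_filter] at hv
    have h1 := le_of_mem_EE hv.1
    exact ⟨k - v, by rw [mem_filter]; exact ⟨hsymm v hv.1, by omega⟩, by omega⟩

/-- the counting inequality -/
lemma count (hpr : p.Prime) (hp : p = 2 * h + 1) (hh : 1 ≤ h) (n D J : ℕ)
    (hJ : J < h + 1 + p * MM p h n) (hDJ : h + 1 + p * MM p h n + p ^ n ≤ J + D)
    (hD : D ≤ (h + 1) * p ^ n) :
    ((EE p h n).filter (fun v => J < v)).card + ((EE p h n).filter (fun v => D ≤ v)).card ≤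
      (h + 1) ^ (n + 1) := by
  set k := h + 1 + p * MM p h n with hk
  have hhp : h + 1 < p := by omega
  rw [card_reflect hpr hhp n J (by omega), ← hk]
  obtain ⟨a, ha⟩ : ∃ a, D = a + p ^ n := ⟨D - p ^ n, by omega⟩
  have h1 : ((EE p h n).filter (fun v => v < k - J)).card ≤
      ((EE p h n).filter (fun v => v < a)).card := by
    apply card_le_card
    intro v hv
    rw [mem_filter] at hv ⊢
    exact ⟨hv.1, by omega⟩
  have h2 := window (p := p) (h := h) (by omega) n a (by omega)
  have h3 : (EE p h n).card = ((EE p h n).filter (fun v => v < a)).card +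
      (((EE p h n).filter (fun v => a ≤ v ∧ v < a + p ^ n)).card +
        ((EE p h n).filter (fun v => D ≤ v)).card) := by
    rw [← card_union_of_disjoint, ← card_union_of_disjoint]
    · congr 1
      ext v
      simp only [mem_union, mem_filter]
      constructor
      · intro hv
        rcases Nat.lt_or_ge v a with h4 | h4
        · exact Or.inl ⟨hv, h4⟩
        · rcases Nat.lt_or_ge v D with h5 | h5
          · exact Or.inr (Or.inl ⟨hv, h4, by omega⟩)
          · exact Or.inr (Or.inr ⟨hv, h5⟩)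
      · rintro (h | h | h) <;> exact h.1
    · rw [disjoint_left]
      intro v hv hv'
      simp only [mem_union, mem_filter] at hv hv'
      rcases hv' with h | h <;> omega
    · rw [disjoint_left]
      intro v hv hv'
      simp only [mem_filter] at hv hv'
      omega
  rw [card_EE hhp] at h3
  have h4 : (h + 2) * (h + 1) ^ n = (h + 1) ^ (n + 1) + (h + 1) ^ n := by ring
  omega

end Pool.Agent.Work.MP_815b5d_co_all
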