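import Pool.Agent.Work.MP_815b5d_co_all.Digits

set_option autoImplicit false

namespace Pool.Agent.Work.MP_815b5d_co_all

open Polynomial Finset

variable {F : Type*} [Field F]

/-- more unknowns than equations -/
lemma exists_sol {ι κ : Type*} (I : Finset ι) (R : Finset κ) (φ : ι → κ → F)
    (h : R.card < I.card) :
    ∃ β : ι → F, (∃ m ∈ I, β m ≠ 0) ∧ ∀ r ∈ R, ∑ m ∈ I, β m * φ m r = 0 := by
  classical
  set A : Matrix R I F := Matrix.of fun r m => φ m.1 r.1 with hA
  have hker : LinearMap.ker A.mulVecLin ≠ ⊥ := by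
    apply LinearMap.ker_ne_bot_of_finrank_lt
    rw [Module.finrank_fintype_fun_eq_card, Module.finrank_fintype_fun_eq_card, Fintype.card_coe,
      Fintype.card_coe]
    exact h
  obtain ⟨v, hv, hv0⟩ := Submodule.exists_mem_ne_zero_of_ne_bot hker
  refine ⟨fun m => if hm : m ∈ I then v ⟨m, hm⟩ else 0, ?_, ?_⟩
  · by_contra hall
    push Not at hall
    apply hv0
    funext m
    have := hall m.1 m.2
    rw [dif_pos m.2] at this
    exact this
  · intro r hr
    have h1 := congrFun (LinearMap.mem_ker.mp hv) ⟨r, hr⟩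
    simp only [Matrix.mulVecLin_apply, Matrix.mulVec, dotProduct, Pi.zero_apply] at h1
    have h2 : ∑ m ∈ I, (if hm : m ∈ I then v ⟨m, hm⟩ else 0) * φ m r =
        ∑ x : I, A ⟨r, hr⟩ x * v x := by
      rw [← Finset.sum_coe_sort]
      refine Finset.sum_congr rfl fun x _ => ?_
      rw [dif_pos x.2, hA, Matrix.of_apply, mul_comm]
    rw [h2]
    exact h1

lemma poly_eq (s : Finset F) (P Q : F[X]) (hP : P.natDegree < s.card) (hQ : Q.natDegree < s.card)
    (h : ∀ c ∈ s, P.eval c = Q.eval c) : P = Q := by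
  classical
  refine Polynomial.eq_of_degrees_lt_of_eval_index_eq (s := s) (v := id)
    (fun _ _ _ _ hxy => hxy) ?_ ?_ h
  · exact lt_of_le_of_lt degree_le_natDegree (by exact_mod_cast hP)
  · exact lt_of_le_of_lt degree_le_natDegree (by exact_mod_cast hQ)

/-- weights extracting a coefficient -/
lemma exists_weights [DecidableEq F] (k : ℕ) (s : Finset F) (σ : F → F) (hinj : Set.InjOn σ s)
    (hcard : k + 1 ≤ s.card) (i0 : ℕ) :
    ∃ l : F → F, ∀ i ≤ k, ∑ b ∈ s, l b * σ b ^ i = if i = i0 then 1 else 0 := by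
  refine ⟨fun b => (Lagrange.basis s σ b).coeff i0, fun i hi => ?_⟩
  have hdeg : ((X : F[X]) ^ i).degree < (s.card : WithBot ℕ) := by
    rw [degree_X_pow]
    exact_mod_cast (by omega : i < s.card)
  have h1 := Lagrange.eq_interpolate (s := s) (v := σ) hinj hdeg
  have h2 : ((X : F[X]) ^ i).coeff i0 = ∑ b ∈ s, (Lagrange.basis s σ b).coeff i0 * σ b ^ i := by
    conv_lhs => rw [h1]
    rw [Lagrange.interpolate_apply, finsetSum_coeff]
    refine Finset.sum_congr rfl fun b _ => ?_
    rw [coeff_C_mul, eval_pow, eval_X, mul_comm]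
  rw [← h2, coeff_X_pow]
  by_cases h : i = i0
  · rw [if_pos h, if_pos h.symm]
  · rw [if_neg h, if_neg (Ne.symm h)]

/-- the powers of `σ` are polynomials with restricted exponents -/
lemma exists_T (p : ℕ) [Fact p.Prime] [CharP F p] (k : ℕ)
    (s : Finset F) (σ : F → F) (hinj : Set.InjOn σ s) (hcard : k + 1 ≤ s.card)
    (hrel : ∀ a ∈ s, ∀ b ∈ s, (a - b) ^ k = (σ a - σ b) ^ k) (m : ℕ) (hm : m ≤ k)
    (hch : ¬ p ∣ k.choose m) :
    ∃ t : F[X], (∀ v, p ∣ k.choose v → t.coeff v = 0) ∧ (m < k → t.coeff k = 0) ∧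
      ∀ c ∈ s, t.eval c = (σ c) ^ m := by
  classical
  obtain ⟨l, hl⟩ := exists_weights k s σ hinj hcard (k - m)
  have hch' : ((k.choose m : ℕ) : F) ≠ 0 := by
    rw [Ne, CharP.cast_eq_zero_iff F p]; exact hch
  set κ : F := ((k.choose m : ℕ) : F) * (-1) ^ m with hκ
  have hκ0 : κ ≠ 0 := mul_ne_zero hch' (pow_ne_zero _ (by simp))
  have hco : ∀ b : F, ∀ v, ((C b - X : F[X]) ^ k).coeff v =
      (-1) ^ k * ((-b) ^ (k - v) * (k.choose v : F)) := by
    intro b v
    have h1 : (C b - X : F[X]) ^ k = C ((-1) ^ k) * (X + C (-b)) ^ k := by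
      rw [C_pow, ← mul_pow]
      congr 1
      rw [C_neg, C_neg, C_1]
      ring
    rw [h1, coeff_C_mul, coeff_X_add_C_pow]
  refine ⟨C κ⁻¹ * ∑ b ∈ s, C (l b) * (C b - X) ^ k, ?_, ?_, ?_⟩
  · intro v hv
    rw [coeff_C_mul, finsetSum_coeff, Finset.sum_eq_zero, mul_zero]
    intro b _
    rw [coeff_C_mul, hco, (CharP.cast_eq_zero_iff F p _).mpr hv]
    ring
  · intro hmk
    rw [coeff_C_mul, finsetSum_coeff]
    have h1 : ∀ b ∈ s, (C (l b) * (C b - X : F[X]) ^ k).coeff k =
        (-1) ^ k * (l b * σ b ^ 0) := by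
      intro b _
      rw [coeff_C_mul, hco, Nat.sub_self, Nat.choose_self]
      simp [mul_comm]
    rw [Finset.sum_congr rfl h1, ← Finset.mul_sum, hl 0 (Nat.zero_le _), if_neg (by omega)]
    ring
  · intro c hc
    rw [eval_mul, eval_C, eval_finsetSum]
    have h2 : ∀ b ∈ s, (C (l b) * (C b - X : F[X]) ^ k).eval c = l b * (σ b - σ c) ^ k := by
      intro b hb
      rw [eval_mul, eval_C, eval_pow, eval_sub, eval_C, eval_X, hrel b hb c hc]
    rw [Finset.sum_congr rfl h2]
    have h4 : ∀ b, (σ b - σ c) ^ k = ∑ i ∈ range (k + 1),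
        (-σ c) ^ i * σ b ^ (k - i) * (k.choose i : F) := by
      intro b
      rw [sub_eq_neg_add, add_pow]
    have h5 : ∑ b ∈ s, l b * (σ b - σ c) ^ k = κ * σ c ^ m := by
      simp_rw [h4, Finset.mul_sum]
      rw [Finset.sum_comm]
      have h6 : ∀ i ∈ range (k + 1), ∑ b ∈ s, l b * ((-σ c) ^ i * σ b ^ (k - i) * (k.choose i : F))
          = (-σ c) ^ i * (k.choose i : F) * (if k - i = k - m then 1 else 0) := by
        intro i _
        rw [← hl (k - i) (Nat.sub_le _ _), Finset.mul_sum]
        refine Finset.sum_congr rfl fun b _ => ?_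
        ring
      rw [Finset.sum_congr rfl h6, Finset.sum_eq_single_of_mem m (mem_range.mpr (by omega))]
      · rw [if_pos rfl, hκ, neg_pow]; ring
      · intro i hi him
        have : i < k + 1 := mem_range.mp hi
        rw [if_neg (by omega), mul_zero]
    rw [h5, ← mul_assoc, inv_mul_cancel₀ hκ0, one_mul]

/-- Main algebraic statement: a map preserving `k`-th powers of differences on a large set
is affine. -/
theorem affine_of_large (p : ℕ) [Fact p.Prime] [CharP F p] (h n : ℕ) (hp : p = 2 * h + 1)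
    (s : Finset F) (σ : F → F)
    (hcard : h + 1 + p * MM p h n + p ^ n + 1 ≤ s.card) (hle : s.card ≤ p ^ (n + 1))
    (hrel : ∀ a ∈ s, ∀ b ∈ s, (a - b) ^ (h + 1 + p * MM p h n) =
      (σ a - σ b) ^ (h + 1 + p * MM p h n)) :
    ∃ α β : F, ∀ c ∈ s, σ c = α * c + β := by
  classical
  have hpr : p.Prime := Fact.out
  have hh : 1 ≤ h := by
    rcases Nat.eq_zero_or_pos h with h0 | h0
    · subst h0; exact absurd (hp ▸ hpr) (by decide)
    · exact h0
  have hhp : h + 1 < p := by omega
  set k := h + 1 + p * MM p h n with hk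
  have hk0 : 0 < k := by omega
  set N := s.card with hN
  have hpn : 1 ≤ p ^ n := Nat.one_le_pow _ _ hpr.pos
  have hMn := two_mul_MM (p := p) (h := h) hp n
  have hinj : Set.InjOn σ s := by
    intro a ha b hb hab
    have h1 := hrel a ha b hb
    rw [hab, sub_self, zero_pow hk0.ne'] at h1
    exact sub_eq_zero.mp (eq_zero_of_pow_eq_zero h1)
  -- the polynomials
  have hTex : ∀ m, ∃ t : F[X], (m ∈ EE p h n → ((∀ v, v ∉ EE p h n → t.coeff v = 0) ∧
      (m < k → t.coeff k = 0) ∧ ∀ c ∈ s, t.eval c = (σ c) ^ m)) := by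
    intro m
    by_cases hm : m ∈ EE p h n
    · obtain ⟨t, ht1, ht2, ht3⟩ := exists_T p k s σ hinj (by omega) hrel m (le_of_mem_EE hm)
        ((choose_EE_iff hpr hhp).mpr hm)
      refine ⟨t, fun _ => ⟨fun v hv => ht1 v ?_, ht2, ht3⟩⟩
      by_contra hcon
      exact hv ((choose_EE_iff hpr hhp).mp hcon)
    · exact ⟨0, fun h1 => absurd h1 hm⟩
  choose T hT using hTex
  have hTdeg : ∀ m ∈ EE p h n, (T m).natDegree ≤ k := by
    intro m hm
    rw [natDegree_le_iff_coeff_eq_zero]
    intro v hv
    exact (hT m hm).1 v fun h1 => absurd (le_of_mem_EE h1) (by omega)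
  -- the pairs
  set Pd : ℕ → Prop := fun D => ∃ B A : F[X], (B ≠ 0 ∨ A ≠ 0) ∧ B.natDegree ≤ D ∧
    A.natDegree ≤ D ∧ ∀ c ∈ s, A.eval c = σ c * B.eval c with hPd
  have hex : Pd (N / 2) := by
    have h1 : s.card < ((range (N / 2 + 1)) ×ˢ (Finset.univ : Finset Bool)).card := by
      rw [card_product, card_range, card_univ, Fintype.card_bool, ← hN]
      omega
    obtain ⟨β, ⟨m0, hm0, hβ0⟩, hβ⟩ := exists_sol (F := F)
      ((range (N / 2 + 1)) ×ˢ (Finset.univ : Finset Bool)) s
      (fun m c => if m.2 then c ^ m.1 else -(σ c * c ^ m.1)) h1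
    set A : F[X] := ∑ i ∈ range (N / 2 + 1), C (β (i, true)) * X ^ i with hA
    set B : F[X] := ∑ i ∈ range (N / 2 + 1), C (β (i, false)) * X ^ i with hB
    have hcoA : ∀ i < N / 2 + 1, A.coeff i = β (i, true) := by
      intro i hi
      simp [hA, finsetSum_coeff, coeff_X_pow, hi]
    have hcoB : ∀ i < N / 2 + 1, B.coeff i = β (i, false) := by
      intro i hi
      simp [hB, finsetSum_coeff, coeff_X_pow, hi]
    have hdeg : ∀ γ : ℕ → F, (∑ i ∈ range (N / 2 + 1), C (γ i) * X ^ i : F[X]).natDegree
        ≤ N / 2 := by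
      intro γ
      refine natDegree_sum_le_of_forall_le _ _ fun i hi => ?_
      refine (natDegree_C_mul_X_pow_le _ _).trans ?_
      have := mem_range.mp hi
      omega
    refine ⟨B, A, ?_, hdeg _, hdeg _, ?_⟩
    · by_contra hcon
      push Not at hcon
      have hm0' : m0.1 < N / 2 + 1 := mem_range.mp (mem_product.mp hm0).1
      apply hβ0
      obtain ⟨i, b⟩ := m0
      cases b
      · rw [← hcoB i hm0', hcon.1, coeff_zero]
      · rw [← hcoA i hm0', hcon.2, coeff_zero]
    · intro c hc
      have h2 := hβ c hc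
      rw [sum_product] at h2
      simp only [Fintype.sum_bool, if_true, Bool.false_eq_true, if_false] at h2
      rw [sum_add_distrib] at h2
      simp only [hA, hB, eval_finsetSum, eval_mul, eval_C, eval_pow, eval_X]
      rw [Finset.mul_sum]
      have h3 : ∑ i ∈ range (N / 2 + 1), β (i, false) * -(σ c * c ^ i) =
          - ∑ i ∈ range (N / 2 + 1), σ c * (β (i, false) * c ^ i) := by
        rw [← Finset.sum_neg_distrib]
        exact Finset.sum_congr rfl fun i _ => by ring
      rw [h3] at h2
      linear_combination h2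
  have hexP : ∃ D, Pd D := ⟨_, hex⟩
  set D := Nat.find hexP with hD
  have hDN : D ≤ N / 2 := Nat.find_min' hexP hex
  obtain ⟨B, A, hBA, hBdeg, hAdeg, hBAev⟩ : Pd D := Nat.find_spec hexP
  have hmin : ∀ B' A' : F[X], (B' ≠ 0 ∨ A' ≠ 0) → (∀ c ∈ s, A'.eval c = σ c * B'.eval c) →
      B'.natDegree < D → A'.natDegree < D → False := by
    intro B' A' h1 h2 h3 h4
    exact Nat.find_min hexP (m := D - 1) (by omega) ⟨B', A', h1, by omega, by omega, h2⟩
  have hDpos : 0 < D := by
    by_contra hcon
    have hD0 : D = 0 := by omega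
    rw [hD0] at hBdeg hAdeg
    have hA := eq_C_of_natDegree_eq_zero (Nat.le_zero.mp hAdeg)
    have hB := eq_C_of_natDegree_eq_zero (Nat.le_zero.mp hBdeg)
    obtain ⟨a, ha, b, hb, hab⟩ := Finset.one_lt_card.mp (by omega : 1 < s.card)
    have h1 := hBAev a ha
    have h2 := hBAev b hb
    rw [hA, hB, eval_C, eval_C] at h1 h2
    have h3 : (σ a - σ b) * B.coeff 0 = 0 := by linear_combination h2 - h1
    have h4 : σ a - σ b ≠ 0 := sub_ne_zero.mpr fun h => hab (hinj ha hb h)
    have h5 : B.coeff 0 = 0 := (mul_eq_zero.mp h3).resolve_left h4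
    have h6 : A.coeff 0 = 0 := by rw [h1, h5, mul_zero]
    rw [h5, C_0] at hB
    rw [h6, C_0] at hA
    rcases hBA with h | h
    · exact h hB
    · exact h hA
  -- general combination of the T's
  have hcomb : ∀ β : ℕ → F, (∃ m ∈ DD p h (n + 1), β m ≠ 0) →
      (∑ m ∈ DD p h (n + 1), C (β m) * T m) ≠ 0 := by
    rintro β ⟨m0, hm0, hβ0⟩ h0
    set P : F[X] := ∑ m ∈ DD p h (n + 1), C (β m) * X ^ m with hP
    have hPdeg : P.degree < (s.card : WithBot ℕ) := by
      refine lt_of_le_of_lt (degree_sum_le _ _) ?_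
      rw [Finset.sup_lt_iff (WithBot.bot_lt_coe _)]
      intro m hm
      refine lt_of_le_of_lt (degree_C_mul_X_pow_le _ _) ?_
      have := le_of_mem_EE (DD_sub_EE hm).1
      exact_mod_cast (by omega : m < s.card)
    have hP0 : P = 0 := by
      refine Polynomial.eq_of_degrees_lt_of_eval_index_eq (s := s) (v := σ) hinj hPdeg ?_ ?_
      · rw [degree_zero]; exact WithBot.bot_lt_coe _
      · intro c hc
        have h1 := congrArg (fun Q : F[X] => Q.eval c) h0
        simp only [eval_finsetSum, eval_mul, eval_C, eval_zero] at h1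
        rw [hP, eval_finsetSum, eval_zero, ← h1]
        refine Finset.sum_congr rfl fun m hm => ?_
        rw [eval_mul, eval_C, eval_pow, eval_X, (hT m (DD_sub_EE hm).1).2.2 c hc]
    have h2 := congrArg (fun Q : F[X] => Q.coeff m0) hP0
    simp only [hP, finsetSum_coeff, coeff_zero, coeff_C_mul_X_pow] at h2
    rw [Finset.sum_eq_single_of_mem m0 hm0] at h2
    · rw [if_pos rfl] at h2; exact hβ0 h2
    · intro m _ hne
      rw [if_neg (Ne.symm hne)]
  -- the level `J`
  have hJ : k ≤ N - D - 1 := by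
    by_contra hcon
    push Not at hcon
    set J := N - D - 1 with hJ
    have hJD : J + D + 1 = N := by omega
    have hDk : D < k := by
      have h1 : p ^ (n + 1) = 2 * (p * MM p h n) + p := by
        rw [pow_succ, ← hMn]; ring
      omega
    have hcount := count hpr hp hh n D J hcon (by omega) (by
      have h1 : p ^ (n + 1) = (2 * h + 1) * p ^ n := by rw [pow_succ, ← hp]; ring
      have h2 : (2 * h + 1) * p ^ n ≤ 2 * ((h + 1) * p ^ n) := by
        have : 2 * ((h + 1) * p ^ n) = (2 * h + 1) * p ^ n + p ^ n := by ring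
        omega
      omega)
    have hktop : k ∈ EE p h n := top_mem_EE n
    -- sets of equations
    have hc1 : ∀ x, x < k → ((EE p h n).filter (fun v => x < v ∧ v < k)).card + 1 =
        ((EE p h n).filter (fun v => x < v)).card := by
      intro x hx
      have : (EE p h n).filter (fun v => x < v) =
          insert k ((EE p h n).filter (fun v => x < v ∧ v < k)) := by
        ext v
        simp only [mem_filter, mem_insert]
        constructor
        · rintro ⟨h1, h2⟩
          have := le_of_mem_EE h1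
          by_cases h3 : v = k
          · exact Or.inl h3
          · exact Or.inr ⟨h1, h2, by omega⟩
        · rintro (rfl | ⟨h1, h2, _⟩)
          · exact ⟨hktop, hx⟩
          · exact ⟨h1, h2⟩
      rw [this, card_insert_of_notMem]
      simp
    have hcDD : (DD p h (n + 1)).card = (h + 1) ^ (n + 1) := card_DD (by omega) (n + 1)
    -- the linear combinations
    have hcoeff : ∀ β : ℕ → F, ∀ (f : ℕ → F[X]) (v : ℕ),
        (∑ m ∈ DD p h (n + 1), C (β m) * f m).coeff v =
          ∑ m ∈ DD p h (n + 1), β m * (f m).coeff v := by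
      intro β f v
      rw [finsetSum_coeff]
      exact Finset.sum_congr rfl fun m _ => coeff_C_mul _
    have hout0 : ∀ β : ℕ → F, ∀ v, v ∉ EE p h n ∨ v = k →
        (∑ m ∈ DD p h (n + 1), C (β m) * T m).coeff v = 0 := by
      intro β v hv
      rw [hcoeff]
      refine Finset.sum_eq_zero fun m hm => ?_
      rcases hv with hv | hv
      · rw [(hT m (DD_sub_EE hm).1).1 v hv, mul_zero]
      · have h1 := le_of_mem_EE (DD_sub_EE hm).2
        rw [hv, (hT m (DD_sub_EE hm).1).2.1 (by omega), mul_zero]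
    have hout1 : ∀ β : ℕ → F, ∀ v, v ∉ EE p h n →
        (∑ m ∈ DD p h (n + 1), C (β m) * T (m + 1)).coeff v = 0 := by
      intro β v hv
      rw [hcoeff]
      refine Finset.sum_eq_zero fun m hm => ?_
      rw [(hT (m + 1) (DD_sub_EE hm).2).1 v hv, mul_zero]
    have hev : ∀ β : ℕ → F, ∀ c ∈ s, (∑ m ∈ DD p h (n + 1), C (β m) * T (m + 1)).eval c =
        σ c * (∑ m ∈ DD p h (n + 1), C (β m) * T m).eval c := by
      intro β c hc
      rw [eval_finsetSum, eval_finsetSum, Finset.mul_sum]
      refine Finset.sum_congr rfl fun m hm => ?_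
      rw [eval_mul, eval_mul, eval_C, (hT (m + 1) (DD_sub_EE hm).2).2.2 c hc,
        (hT m (DD_sub_EE hm).1).2.2 c hc]
      ring
    have hmax : A.natDegree = D ∨ B.natDegree = D := by
      by_contra hcon2
      push Not at hcon2
      exact hmin B A hBA hBAev (by omega) (by omega)
    rcases hmax with hAD | hBD
    · -- case `deg A = D`
      obtain ⟨β, hβ0, hβ⟩ := exists_sol (F := F) (DD p h (n + 1))
        (((EE p h n).filter (fun v => J < v ∧ v < k)).disjSum
          ((EE p h n).filter (fun v => D ≤ v)))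
        (fun m r => Sum.elim (fun v => (T m).coeff v) (fun v => (T (m + 1)).coeff v) r)
        (by rw [card_disjSum, hcDD]; have := hc1 J hcon; omega)
      set U := ∑ m ∈ DD p h (n + 1), C (β m) * T m with hU
      set V := ∑ m ∈ DD p h (n + 1), C (β m) * T (m + 1) with hV
      have hU0 : U ≠ 0 := hcomb β hβ0
      have hUdeg : U.natDegree ≤ J := by
        rw [natDegree_le_iff_coeff_eq_zero]
        intro v hv
        by_cases h1 : v ∈ EE p h n ∧ v ≠ k
        · have h2 := le_of_mem_EE h1.1
          have h3 := hβ (Sum.inl v) (by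
            rw [inl_mem_disjSum, mem_filter]; exact ⟨h1.1, hv, by omega⟩)
          simp only [Sum.elim_inl] at h3
          rw [hU, hcoeff]; exact h3
        · apply hout0
          by_cases h2 : v ∈ EE p h n
          · right; by_contra h3; exact h1 ⟨h2, h3⟩
          · left; exact h2
      have hVdeg : V.natDegree ≤ D - 1 := by
        rw [natDegree_le_iff_coeff_eq_zero]
        intro v hv
        by_cases h1 : v ∈ EE p h n
        · have h3 := hβ (Sum.inr v) (by
            rw [inr_mem_disjSum, mem_filter]; exact ⟨h1, by omega⟩)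
          simp only [Sum.elim_inr] at h3
          rw [hV, hcoeff]; exact h3
        · exact hout1 β v h1
      have hprop : U * A = V * B := by
        refine poly_eq s _ _ ?_ ?_ ?_
        · exact lt_of_le_of_lt natDegree_mul_le (by omega)
        · exact lt_of_le_of_lt natDegree_mul_le (by omega)
        · intro c hc
          rw [eval_mul, eval_mul, hBAev c hc, hev β c hc]; ring
      have hA0 : A ≠ 0 := by
        intro h0; rw [h0, natDegree_zero] at hAD; omega
      have hVB : V * B ≠ 0 := hprop ▸ mul_ne_zero hU0 hA0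
      have hV0 : V ≠ 0 := left_ne_zero_of_mul hVB
      have hB0 : B ≠ 0 := right_ne_zero_of_mul hVB
      have h4 := congrArg natDegree hprop
      rw [natDegree_mul hU0 hA0, natDegree_mul hV0 hB0] at h4
      exact hmin U V (Or.inl hU0) (hev β) (by omega) (by omega)
    · -- case `deg B = D`
      have hc2 : ((EE p h n).filter (fun v => D ≤ v ∧ v < k)).card + 1 =
          ((EE p h n).filter (fun v => D ≤ v)).card := by
        have h1 := hc1 (D - 1) (by omega)
        have h2 : (EE p h n).filter (fun v => D - 1 < v ∧ v < k) =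
            (EE p h n).filter (fun v => D ≤ v ∧ v < k) := by
          apply filter_congr; intro v _; omega
        have h3 : (EE p h n).filter (fun v => D - 1 < v) =
            (EE p h n).filter (fun v => D ≤ v) := by
          apply filter_congr; intro v _; omega
        rw [h2, h3] at h1
        exact h1
      obtain ⟨β, hβ0, hβ⟩ := exists_sol (F := F) (DD p h (n + 1))
        (((EE p h n).filter (fun v => D ≤ v ∧ v < k)).disjSum
          ((EE p h n).filter (fun v => J < v)))
        (fun m r => Sum.elim (fun v => (T m).coeff v) (fun v => (T (m + 1)).coeff v) r)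
        (by rw [card_disjSum, hcDD]; omega)
      set U := ∑ m ∈ DD p h (n + 1), C (β m) * T m with hU
      set V := ∑ m ∈ DD p h (n + 1), C (β m) * T (m + 1) with hV
      have hU0 : U ≠ 0 := hcomb β hβ0
      have hUdeg : U.natDegree ≤ D - 1 := by
        rw [natDegree_le_iff_coeff_eq_zero]
        intro v hv
        by_cases h1 : v ∈ EE p h n ∧ v ≠ k
        · have h2 := le_of_mem_EE h1.1
          have h3 := hβ (Sum.inl v) (by
            rw [inl_mem_disjSum, mem_filter]; exact ⟨h1.1, by omega, by omega⟩)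
          simp only [Sum.elim_inl] at h3
          rw [hU, hcoeff]; exact h3
        · apply hout0
          by_cases h2 : v ∈ EE p h n
          · right; by_contra h3; exact h1 ⟨h2, h3⟩
          · left; exact h2
      have hVdeg : V.natDegree ≤ J := by
        rw [natDegree_le_iff_coeff_eq_zero]
        intro v hv
        by_cases h1 : v ∈ EE p h n
        · have h3 := hβ (Sum.inr v) (by
            rw [inr_mem_disjSum, mem_filter]; exact ⟨h1, by omega⟩)
          simp only [Sum.elim_inr] at h3
          rw [hV, hcoeff]; exact h3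
        · exact hout1 β v h1
      have hprop : U * A = V * B := by
        refine poly_eq s _ _ ?_ ?_ ?_
        · exact lt_of_le_of_lt natDegree_mul_le (by omega)
        · exact lt_of_le_of_lt natDegree_mul_le (by omega)
        · intro c hc
          rw [eval_mul, eval_mul, hBAev c hc, hev β c hc]; ring
      have hB0 : B ≠ 0 := by
        intro h0; rw [h0, natDegree_zero] at hBD; omega
      by_cases hV0 : V = 0
      · exact hmin U V (Or.inl hU0) (hev β) (by omega) (by rw [hV0, natDegree_zero]; omega)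
      · have hUA : U * A ≠ 0 := hprop ▸ mul_ne_zero hV0 hB0
        have hA0 : A ≠ 0 := right_ne_zero_of_mul hUA
        have h4 := congrArg natDegree hprop
        rw [natDegree_mul hU0 hA0, natDegree_mul hV0 hB0] at h4
        exact hmin U V (Or.inl hU0) (hev β) (by omega) (by omega)
  -- proportionality of all pairs
  have hkD : k + D < N := by omega
  have hpropm : ∀ m ∈ DD p h (n + 1), T m * A = T (m + 1) * B := by
    intro m hm
    have hm1 := DD_sub_EE hm
    refine poly_eq s _ _ ?_ ?_ ?_
    · have := hTdeg m hm1.1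
      exact lt_of_le_of_lt natDegree_mul_le (by omega)
    · have := hTdeg (m + 1) hm1.2
      exact lt_of_le_of_lt natDegree_mul_le (by omega)
    · intro c hc
      rw [eval_mul, eval_mul, hBAev c hc, (hT m hm1.1).2.2 c hc, (hT (m + 1) hm1.2).2.2 c hc,
        pow_succ]
      ring
  have h0E : (0 : ℕ) ∈ EE p h n := (DD_sub_EE (zero_mem_DD _)).1
  have h1E : (1 : ℕ) ∈ EE p h n := (DD_sub_EE (zero_mem_DD (n + 1))).2
  have hT0 : T 0 = 1 := by
    refine poly_eq s _ _ ?_ (by rw [natDegree_one]; omega) ?_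
    · have := hTdeg 0 h0E; omega
    · intro c hc
      rw [(hT 0 h0E).2.2 c hc, pow_zero, eval_one]
  have hA : A = T 1 * B := by
    have := hpropm 0 (zero_mem_DD _)
    rwa [hT0, one_mul, zero_add] at this
  have hB0 : B ≠ 0 := by
    rintro rfl
    rw [mul_zero] at hA
    rcases hBA with h | h
    · exact h rfl
    · exact h hA
  have hTsucc : ∀ m ∈ DD p h (n + 1), T (m + 1) = T m * T 1 := by
    intro m hm
    have h1 := hpropm m hm
    rw [hA] at h1
    have h2 : T (m + 1) * B = (T m * T 1) * B := by rw [← h1]; ring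
    exact mul_right_cancel₀ hB0 h2
  have hTpow : ∀ i ≤ h + 1, T i = T 1 ^ i ∧ i ∈ EE p h n := by
    intro i
    induction i with
    | zero => intro _; exact ⟨by rw [hT0, pow_zero], h0E⟩
    | succ i ih =>
      intro hi
      have hi' : i ∈ DD p h (n + 1) :=
        mem_DD_succ.mpr ⟨i, by omega, 0, zero_mem_DD _, by simp⟩
      refine ⟨?_, (DD_sub_EE hi').2⟩
      rw [hTsucc i hi', (ih (by omega)).1, pow_succ]
  have hT1ne : T 1 ≠ 0 := by
    intro h0
    obtain ⟨a, ha, b, hb, hab⟩ := Finset.one_lt_card.mp (by omega : 1 < s.card)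
    have h1 := (hT 1 h1E).2.2 a ha
    have h2 := (hT 1 h1E).2.2 b hb
    rw [h0, eval_zero, pow_one] at h1 h2
    exact hab (hinj ha hb (by rw [← h1, ← h2]))
  -- degrees lie in `EE`
  have hdegE : ∀ m ∈ EE p h n, ∀ P : F[X], P ≠ 0 → T m = P → P.natDegree ∈ EE p h n := by
    intro m hm P hP0 hTP
    by_contra hcon
    have h1 := (hT m hm).1 P.natDegree hcon
    rw [hTP, coeff_natDegree] at h1
    exact hP0 (leadingCoeff_eq_zero.mp h1)
  set d := (T 1).natDegree with hd
  have hmul : ∀ m, 1 ≤ m → m ≤ h + 1 → m * d ∈ EE p h n := by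
    intro m _ hm
    have h1 := hdegE m (hTpow m hm).2 (T 1 ^ m) (pow_ne_zero _ hT1ne) (hTpow m hm).1
    rwa [natDegree_pow] at h1
  have hd1 : d ≤ 1 := by
    refine EE_mul hp hh n hmul ?_
    intro hh1
    have hk2 := le_of_mem_EE (hmul 2 (by omega) (by omega))
    rw [← hk] at hk2
    rcases Nat.eq_zero_or_pos n with hn | hn
    · left
      rw [hn] at hk
      simp only [MM] at hk
      omega
    · right
      have h3mem : 3 ∈ EE p h n := by
        obtain ⟨n', rfl⟩ : ∃ n', n = n' + 1 := ⟨n - 1, by omega⟩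
        exact mem_EE.mpr ⟨0, by omega, 1, mem_DD_succ.mpr ⟨1, by omega, 0, zero_mem_DD _, by simp⟩,
          by omega⟩
      have hT3 : T 3 = T 1 ^ 3 := by
        refine poly_eq s _ _ ?_ ?_ ?_
        · have := hTdeg 3 h3mem; omega
        · rw [natDegree_pow, ← hd]
          have hp3 : p = 3 := by omega
          have h4 : k = 2 + p * MM p h n := by rw [hk, hh1]
          rw [hp3, hh1] at h4
          rw [hp3, hh1] at hMn
          rw [hp3] at hcard
          omega
        · intro c hc
          rw [eval_pow, (hT 3 h3mem).2.2 c hc, (hT 1 h1E).2.2 c hc, pow_one]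
      have h5 := hdegE 3 h3mem (T 1 ^ 3) (pow_ne_zero _ hT1ne) hT3
      rwa [natDegree_pow] at h5
  refine ⟨(T 1).coeff 1, (T 1).coeff 0, fun c hc => ?_⟩
  have h6 := (hT 1 h1E).2.2 c hc
  rw [eq_X_add_C_of_natDegree_le_one hd1] at h6
  simp only [eval_add, eval_mul, eval_C, eval_X, pow_one] at h6
  exact h6.symm

end Pool.Agent.Work.MP_815b5d_co_all
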